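import Pool.Agent.Helper58.R3.Stmts

/-!
The three leaves at `v0` (module TRI).
-/

set_option autoImplicit false
open Classical

namespace Pool.Agent.Helper58.R3

theorem tri_mem_nb {m : ℕ} {H : SimpleGraph (Fin m)} {F : Finset (Fin m)} {x : Fin m} :
    x ∈ nb H F ↔ x ∉ F ∧ ∃ y ∈ F, H.Adj y x := by
  simp [nb]

theorem tri_mem_N {m : ℕ} {H : SimpleGraph (Fin m)} {v x : Fin m} :
    x ∈ N H v ↔ H.Adj v x := by
  simp [N]

theorem tri_mem_Z {m : ℕ} {L D : Finset (Fin m)} {x : Fin m} :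
    x ∈ Finset.univ \ (L ∪ D) ↔ x ∉ L ∧ x ∉ D := by
  simp [Finset.mem_sdiff, Finset.mem_union, not_or]

theorem tri_notZ {m : ℕ} {L D : Finset (Fin m)} {x : Fin m}
    (h : x ∉ Finset.univ \ (L ∪ D)) : x ∈ L ∪ D := by
  by_contra h2
  exact h (Finset.mem_sdiff.mpr ⟨Finset.mem_univ _, h2⟩)

theorem tri_we {m : ℕ} {H : SimpleGraph (Fin m)} {v0 : Fin m} {A : Type}
    {X : Finset (Fin m)} {L D : A → Finset (Fin m)} {Φ : A → Fin m → Fin m}
    (c : Cfg H v0 X L D Φ) (l : A) (hv : v0 ∈ L l ∪ D l) :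
    WE H v0 (Finset.univ \ (L l ∪ D l))
      (fun x => if x ∈ Finset.univ \ (L l ∪ D l) then v0 else Φ l x) := by
  have key : ∀ x y, H.Adj x y → x ∈ Finset.univ \ (L l ∪ D l) →
      y ∉ Finset.univ \ (L l ∪ D l) → H.Adj v0 (Φ l y) := by
    intro x y hxy hx hy
    have hy2 := tri_notZ hy
    rcases Finset.mem_union.mp hy2 with h | h
    · have h3 := c.nbL l y h x hxy.symm
      have h4 := tri_mem_Z.mp hx
      rcases h3 with h5 | h5
      · exact absurd h5 h4.1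
      · exact absurd h5 h4.2
    · exact c.ΦD l y h
  refine ⟨?_, ?_, ?_, ?_, ?_⟩
  · intro h
    exact (Finset.mem_sdiff.mp h).2 hv
  · intro z hz
    exact if_pos hz
  · intro x y hx hy hxy
    simp only [if_neg hx, if_neg hy] at hxy
    exact c.inj l x (tri_notZ hx) y (tri_notZ hy) hxy
  · intro x hx
    simp only [if_neg hx]
    rcases Finset.mem_union.mp (tri_notZ hx) with h | h
    · exact (c.ΦL l x h).1
    · exact (c.ΦD l x h).ne'
  · intro x y hxy hn
    by_cases hx : x ∈ Finset.univ \ (L l ∪ D l)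
    · by_cases hy : y ∈ Finset.univ \ (L l ∪ D l)
      · exact absurd ⟨hx, hy⟩ hn
      · simp only [if_pos hx, if_neg hy]
        exact key x y hxy hx hy
    · by_cases hy : y ∈ Finset.univ \ (L l ∪ D l)
      · simp only [if_neg hx, if_pos hy]
        exact (key y x hxy.symm hy hx).symm
      · simp only [if_neg hx, if_neg hy]
        exact c.hom l x (tri_notZ hx) y (tri_notZ hy) hxy

theorem tri_A (h1 : ST_LEAF) (h2 : ST_SL) {m : ℕ} {H : SimpleGraph (Fin m)} {v0 : Fin m}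
    {A : Type} {X : Finset (Fin m)} {L D : A → Finset (Fin m)} {Φ : A → Fin m → Fin m}
    (c : Cfg H v0 X L D Φ) (l : A) (hn : (L l).Nonempty) (hv : v0 ∈ L l ∪ D l) :
    v0 ∈ D l ∧ ∃ a b, a ≠ b ∧ a ∉ L l ∧ b ∉ L l ∧ H.Adj v0 a ∧ H.Adj v0 b := by
  obtain ⟨⟨z, hz1, hz2⟩, hl⟩ := h1 m H v0 A X L D Φ c l
  obtain ⟨hD3, hnb, hnbZ, hno⟩ := hl hn
  have hZ : (Finset.univ \ (L l ∪ D l)).Nonempty := ⟨z, tri_mem_Z.mpr ⟨hz1, hz2⟩⟩
  have h3 := h2 m H v0 (Finset.univ \ (L l ∪ D l))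
    (fun x => if x ∈ Finset.univ \ (L l ∪ D l) then v0 else Φ l x) c.k3 (tri_we c l hv) hZ
    (by rw [hnbZ]; exact hD3) c.deg
  rw [hnbZ] at h3
  rcases h3 with ⟨w, hw, hwd⟩ | ⟨hvD, a, ha, b, hb, hab, h4, h5⟩
  · have hw2 := tri_mem_Z.mp hw
    exact absurd ⟨w, hw2.1, hw2.2, hwd⟩ hno
  · exact ⟨hvD, a, b, hab, (tri_mem_Z.mp ha).1, (tri_mem_Z.mp hb).1, h4, h5⟩

theorem st_TRI (h1 : ST_LEAF) (h2 : ST_SL) : ST_TRI := by
  intro m H v0 A X L D Φ c
  have hvL : ∀ l, v0 ∉ L l := by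
    intro l hl
    have h3 := tri_A h1 h2 c l ⟨v0, hl⟩ (Finset.mem_union_left _ hl)
    exact c.LX l v0 hl (c.DX l v0 h3.1)
  have hvX : v0 ∈ X := by
    rcases c.cov v0 with h | ⟨l, h⟩
    · exact h
    · exact absurd h (hvL l)
  have hnbr : ∀ x, H.Adj v0 x → ∃ l, x ∈ L l ∧ v0 ∈ D l := by
    intro x hx
    rcases c.cov x with h | ⟨l, h⟩
    · exact absurd hx (c.ind v0 hvX x h)
    · rcases c.nbL l x h v0 hx.symm with h3 | h3
      · exact absurd h3 (hvL l)
      · exact ⟨l, h, h3⟩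
  have hdiff : ∀ x y l, H.Adj v0 x → H.Adj v0 y → x ∈ L l → y ∈ L l → x = y := by
    intro x y l hx hy hxl hyl
    by_contra hxy
    have hvD : v0 ∈ D l := by
      rcases c.nbL l x hxl v0 hx.symm with h3 | h3
      · exact absurd h3 (hvL l)
      · exact h3
    obtain ⟨_, a, b, hab, haL, hbL, ha, hb⟩ := tri_A h1 h2 c l ⟨x, hxl⟩
      (Finset.mem_union_right _ hvD)
    have hsub : ({x, y, a, b} : Finset (Fin m)) ⊆ N H v0 := by
      intro w hw
      simp only [Finset.mem_insert, Finset.mem_singleton] at hw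
      rw [tri_mem_N]
      rcases hw with rfl | rfl | rfl | rfl
      · exact hx
      · exact hy
      · exact ha
      · exact hb
    have hxa : x ≠ a := fun h => haL (h ▸ hxl)
    have hxb : x ≠ b := fun h => hbL (h ▸ hxl)
    have hya : y ≠ a := fun h => haL (h ▸ hyl)
    have hyb : y ≠ b := fun h => hbL (h ▸ hyl)
    have hcard : ({x, y, a, b} : Finset (Fin m)).card = 4 := by
      rw [Finset.card_insert_of_notMem, Finset.card_insert_of_notMem,
        Finset.card_insert_of_notMem, Finset.card_singleton]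
      · simpa using hab
      · simp only [Finset.mem_insert, Finset.mem_singleton, not_or]
        exact ⟨hya, hyb⟩
      · simp only [Finset.mem_insert, Finset.mem_singleton, not_or]
        exact ⟨hxy, hxa, hxb⟩
    have h4 := Finset.card_le_card hsub
    rw [hcard, c.deg] at h4
    omega
  let e := (Finset.equivFinOfCardEq c.deg).symm
  have ha : ∀ j : Fin 3, H.Adj v0 ((e j : { x // x ∈ N H v0 }) : Fin m) := fun j =>
    tri_mem_N.mp (e j).2
  have hex : ∀ j : Fin 3, ∃ l, ((e j : { x // x ∈ N H v0 }) : Fin m) ∈ L l ∧ v0 ∈ D l :=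
    fun j => hnbr _ (ha j)
  choose i hi1 hi2 using hex
  have hNv : ∀ x, H.Adj v0 x ↔ ∃ j, x = ((e j : { x // x ∈ N H v0 }) : Fin m) := by
    intro x
    constructor
    · intro hx
      refine ⟨e.symm ⟨x, tri_mem_N.mpr hx⟩, ?_⟩
      rw [Equiv.apply_symm_apply]
    · rintro ⟨j, rfl⟩
      exact ha j
  refine ⟨i, fun j => ((e j : { x // x ∈ N H v0 }) : Fin m), ?_⟩
  refine ⟨c, ?_, ?_, ?_, ?_, hi1, hNv, hvX, hi2, ?_⟩
  · intro l hl
    exact ((h1 m H v0 A X L D Φ c l).2 hl).1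
  · intro l hl
    exact ((h1 m H v0 A X L D Φ c l).2 hl).2.1
  · intro l
    exact (h1 m H v0 A X L D Φ c l).1
  · intro j j' hjj
    have h5 := hi1 j'
    rw [← hjj] at h5
    have h6 := hdiff _ _ (i j) (ha j) (ha j') (hi1 j) h5
    exact e.injective (Subtype.ext h6)
  · intro l hl hvl
    have h5 := ((h1 m H v0 A X L D Φ c l).2 hl).2.1
    rw [← h5] at hvl
    obtain ⟨_, y, hy, hyv⟩ := tri_mem_nb.mp hvl
    obtain ⟨j, hj⟩ := (hNv y).mp hyv.symm
    refine ⟨j, ?_⟩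
    subst hj
    exact c.LL l (i j) _ hy (hi1 j)

end Pool.Agent.Helper58.R3
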